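import Pool.Agent.Zk54.MR.DefR
import Pool.Agent.Zk54.MQ.M13
import Pool.Agent.Zk54.MQ.M14

set_option autoImplicit false
set_option linter.unusedSectionVars false
set_option linter.style.haveILetI false

namespace Pool.Agent.Zk54.MR

open Pool.Agent.Zk54.MQ hiding Bad3 Sec3

open Subgroup

section

variable {G S Ω : Type} [Group G] [Group S] [MulAction G Ω] {m : (Ω → S) →* G} {X : Subgroup G}

/-- a section of `G` which kills the normal subgroup is a section of `X` -/
theorem e10_case1 {p : ℕ} [Finite G] (h : WD m ⊥ X) (𝔊 : (S : Type) → [Group S] → Prop)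
    (hX : Sec3 p 𝔊 X) {Y : Type} [Group Y] {H : Subgroup G} {f : H →* Y} (hH : ¬ p ∣ H.index)
    (hf : Function.Surjective f) (hbad : Bad3 p 𝔊 Y)
    (hk : ∀ g : H, (g : G) ∈ m.range → f g = 1) : False := by
  have := M13_normal h
  let e : X →* G ⧸ m.range := (QuotientGroup.mk' m.range).comp X.subtype
  have he : Function.Bijective e := by
    constructor
    · rw [injective_iff_map_eq_one]
      intro x hx
      have h1 : ((x : G) : G ⧸ m.range) = 1 := hx
      rw [QuotientGroup.eq_one_iff] at h1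
      exact Subtype.ext (M13_inf h h1 x.2)
    · intro y
      obtain ⟨g, rfl⟩ := QuotientGroup.mk'_surjective _ y
      obtain ⟨u, x, hx, rfl⟩ := M13_dec h g
      refine ⟨⟨x, hx⟩, ?_⟩
      show QuotientGroup.mk' m.range x = QuotientGroup.mk' m.range (m u * x)
      rw [map_mul]
      have : QuotientGroup.mk' m.range (m u) = 1 := by
        rw [← MonoidHom.mem_ker, QuotientGroup.ker_mk']
        exact ⟨u, rfl⟩
      rw [this, one_mul]
  let E := MulEquiv.ofBijective e he
  let π : G →* X := E.symm.toMonoidHom.comp (QuotientGroup.mk' m.range)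
  have hπs : Function.Surjective π := E.symm.surjective.comp (QuotientGroup.mk'_surjective _)
  have hπk : ∀ g, π g = 1 → g ∈ m.range := by
    intro g hg
    have h1 : E.symm (QuotientGroup.mk' m.range g) = 1 := hg
    rw [EmbeddingLike.map_eq_one_iff, ← MonoidHom.mem_ker, QuotientGroup.ker_mk'] at h1
    exact h1
  let q : H →* H.map π := π.subgroupMap H
  have hq : Function.Surjective q := π.subgroupMap_surjective H
  have hker : q.ker ≤ f.ker := by
    intro g hg
    rw [MonoidHom.mem_ker] at hg ⊢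
    apply hk
    apply hπk
    exact congrArg Subtype.val hg
  let g : H.map π →* Y := MonoidHom.liftOfSurjective q hq ⟨f, hker⟩
  have hg : ∀ x, g (q x) = f x := fun x =>
    MonoidHom.liftOfRightInverse_comp_apply _ _ _ ⟨f, hker⟩ x
  refine hX Y (H.map π) g ?_ ?_ hbad
  · exact fun hd => hH (hd.trans (index_map_dvd _ hπs))
  · intro y
    obtain ⟨x, rfl⟩ := hf y
    exact ⟨q x, hg x⟩

end

/-- wreath products with a simple group without nonsolvable proper subgroups of index prime to `p` -/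
theorem wreath_sec3 {p : ℕ} [_hp : Fact p.Prime] {G S Ω : Type} [Group G] [Finite G] [Group S] [Finite S]
    [Finite Ω] [MulAction G Ω] {m : (Ω → S) →* G} {X : Subgroup G} (h : WD m ⊥ X)
    (𝔊 : (S : Type) → [Group S] → Prop)
    (hiso : ∀ (S S' : Type) [Group S] [Group S'], Nonempty (S ≃* S') → 𝔊 S → 𝔊 S')
    (hS : IsSimpleGroup S) (hna : ∃ a b : S, a * b ≠ b * a) (hpS : p ∣ Nat.card S)
    (hsub : ∀ K : Subgroup S, ¬ p ∣ K.index → K = ⊤ ∨ Group.IsSolvable K) (hgood : 𝔊 S)
    (hX : Sec3 p 𝔊 X) : Sec3 p 𝔊 G := by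
  classical
  intro Y _ H f hH hf hbad
  have hEn := M13_normal h
  obtain ⟨M, hM, hmin, ⟨a0, ha0, b0, hb0, hab⟩, hQ, hInn, -⟩ := id hbad
  obtain ⟨K, hK⟩ : ∃ K : Subgroup (Ω → S), K = H.comap m := ⟨_, rfl⟩
  have hKm : ∀ k : Ω → S, k ∈ K ↔ m k ∈ H := fun k => by rw [hK, mem_comap]
  obtain ⟨ψ, hψ⟩ : ∃ ψ : K →* Y, ∀ k : K, ψ k = f ⟨m k, (hKm _).1 k.2⟩ := by
    refine ⟨⟨⟨fun k => f ⟨m k, (hKm _).1 k.2⟩, ?_⟩, ?_⟩, fun k => rfl⟩
    · have : (⟨m ((1 : K) : Ω → S), (hKm _).1 (1 : K).2⟩ : H) = 1 := by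
        apply Subtype.ext
        show m 1 = 1
        exact map_one m
      rw [this, map_one]
    · intro a b
      show f _ = f _ * f _
      rw [← map_mul]
      congr 1
      apply Subtype.ext
      exact map_mul m _ _
  have hr : ψ.range.Normal := by
    constructor
    rintro _ ⟨k, rfl⟩ y
    obtain ⟨g, rfl⟩ := hf y
    have h1 : (g : G) * m k * (g : G)⁻¹ ∈ m.range := hEn.conj_mem _ ⟨_, rfl⟩ _
    obtain ⟨k', hk'⟩ := h1
    have h2 : k' ∈ K := by
      rw [hKm, hk']
      exact H.mul_mem (H.mul_mem g.2 ((hKm _).1 k.2)) (H.inv_mem g.2)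
    refine ⟨⟨k', h2⟩, ?_⟩
    rw [hψ, hψ, ← map_inv, ← map_mul, ← map_mul]
    congr 1
    apply Subtype.ext
    exact hk'
  by_cases hb : ψ.range = ⊥
  · refine e10_case1 h 𝔊 hX hH hf hbad fun g hg => ?_
    obtain ⟨k, hk⟩ := hg
    have h1 : k ∈ K := by rw [hKm, hk]; exact g.2
    have h2 : ψ ⟨k, h1⟩ ∈ ψ.range := ⟨_, rfl⟩
    rw [hb, mem_bot, hψ] at h2
    rw [← h2]
    congr 1
    apply Subtype.ext
    exact hk.symm
  have hMr : M ≤ ψ.range := hmin _ hr hb
  -- indices
  have hKi : ¬ p ∣ K.index := by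
    rw [hK, index_comap]
    exact M13_relIndex H m.range hH
  have key : ∀ w : Ω, (∀ s : S, Pi.mulSingle w s ∈ K) ∨
      Group.IsSolvable (K.map (Pi.evalMonoidHom (fun _ => S) w)) := by
    intro w
    have hBi : ¬ p ∣ (K.map (Pi.evalMonoidHom (fun _ => S) w)).index := by
      intro hd
      refine hKi (hd.trans (index_map_dvd _ ?_))
      intro s
      exact ⟨fun _ => s, rfl⟩
    rcases hsub _ hBi with h1 | h1
    · left
      have hsn : (MonoidHom.mulSingle (fun _ : Ω => S) w).range.Normal := by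
        constructor
        rintro _ ⟨s, rfl⟩ k
        refine ⟨k w * s * (k w)⁻¹, ?_⟩
        exact (M13_single k w s).symm
      have hAi : ¬ p ∣ (K.comap (MonoidHom.mulSingle (fun _ : Ω => S) w)).index := by
        rw [index_comap]
        exact M13_relIndex K _ hKi
      have hAn : (K.comap (MonoidHom.mulSingle (fun _ : Ω => S) w)).Normal := by
        constructor
        intro a ha s
        have hs : s ∈ K.map (Pi.evalMonoidHom (fun _ => S) w) := by rw [h1]; exact mem_top _
        obtain ⟨k, hk, rfl⟩ := hs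
        rw [mem_comap] at ha ⊢
        have e : MonoidHom.mulSingle (fun _ : Ω => S) w
            ((Pi.evalMonoidHom (fun _ => S) w) k * a * ((Pi.evalMonoidHom (fun _ => S) w) k)⁻¹) =
            k * MonoidHom.mulSingle (fun _ : Ω => S) w a * k⁻¹ := (M13_single k w a).symm
        rw [e]
        exact K.mul_mem (K.mul_mem hk ha) (K.inv_mem hk)
      rcases hAn.eq_bot_or_eq_top with h2 | h2
      · exfalso
        apply hAi
        rw [h2, index_bot]
        exact hpS
      · intro s
        have : s ∈ K.comap (MonoidHom.mulSingle (fun _ : Ω => S) w) := by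
          rw [h2]; exact mem_top _
        exact this
    · exact Or.inr h1
  -- the derived series of `K`
  obtain ⟨n, hn⟩ : ∃ n, ∀ k ∈ derivedSeries K n, ∀ w, ¬ (∀ s : S, Pi.mulSingle w s ∈ K) →
      (k : Ω → S) w = 1 := by
    have h1 : ∀ w : Ω, ∃ n, ∀ k ∈ derivedSeries K n, ¬ (∀ s : S, Pi.mulSingle w s ∈ K) →
        (k : Ω → S) w = 1 := by
      intro w
      rcases key w with h1 | h1
      · exact ⟨0, fun k _ h2 => absurd h1 h2⟩
      · obtain ⟨n, hn⟩ := h1.solvable
        refine ⟨n, fun k hk _ => ?_⟩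
        have h2 := map_derivedSeries_le_derivedSeries
          ((Pi.evalMonoidHom (fun _ => S) w).subgroupMap K) n
        have h3 := h2 ⟨k, hk, rfl⟩
        rw [hn, mem_bot] at h3
        exact congrArg Subtype.val h3
    choose N hN using h1
    have := Fintype.ofFinite Ω
    refine ⟨Finset.univ.sup N, fun k hk w hw => hN w k ?_ hw⟩
    exact derivedSeries_antitone K (Finset.le_sup (Finset.mem_univ w)) hk
  have hperf : M ≤ ⁅M, M⁆ := by
    refine hmin _ inferInstance fun h0 => ?_
    rw [commutator_eq_bot_iff_le_centralizer] at h0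
    exact hab (mem_centralizer_iff.1 (h0 hb0) a0 ha0)
  have hMd : ∀ j, M ≤ (derivedSeries K j).map ψ := by
    intro j
    induction j with
    | zero =>
      rw [derivedSeries_zero, ← MonoidHom.range_eq_map]
      exact hMr
    | succ j ih =>
      rw [derivedSeries_succ, map_commutator]
      exact hperf.trans (commutator_mono ih ih)
  -- a factor which does not commute with `M`
  obtain ⟨w, hw, s0, y0, hy0, hne⟩ : ∃ (w : Ω) (hw : ∀ s : S, (Pi.mulSingle w s : Ω → S) ∈ K)
      (s : S) (y : Y), y ∈ M ∧ y * ψ ⟨Pi.mulSingle w s, hw s⟩ ≠ ψ ⟨Pi.mulSingle w s, hw s⟩ * y := by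
    by_contra hcon'
    have hcon : ∀ (w : Ω) (hw : ∀ s : S, (Pi.mulSingle w s : Ω → S) ∈ K) (s : S) (y : Y), y ∈ M →
        y * ψ ⟨Pi.mulSingle w s, hw s⟩ = ψ ⟨Pi.mulSingle w s, hw s⟩ * y := by
      intro w hw s y hy
      by_contra h1
      exact hcon' ⟨w, hw, s, y, hy, h1⟩
    obtain ⟨k, hk, hk2⟩ := hMd n hb0
    obtain ⟨L, hL⟩ : ∃ L : Subgroup (Ω → S), L = ((centralizer (M : Set Y)).comap ψ).map K.subtype :=
      ⟨_, rfl⟩
    have h1 : (k : Ω → S) ∈ L := by
      refine pi_mem_of_mulSingle_mem _ fun i => ?_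
      by_cases hi : ∀ s : S, Pi.mulSingle i s ∈ K
      · rw [hL]
        refine ⟨⟨Pi.mulSingle i ((k : Ω → S) i), hi _⟩, ?_, rfl⟩
        show ψ _ ∈ centralizer (M : Set Y)
        rw [mem_centralizer_iff]
        intro y hy
        exact hcon i hi _ y hy
      · rw [hn k hk i hi, Pi.mulSingle_one]
        exact L.one_mem
    rw [hL] at h1
    obtain ⟨k', hk', hkk⟩ := h1
    have h2 : k' = k := Subtype.ext hkk
    rw [h2] at hk'
    have h3 : ψ k ∈ centralizer (M : Set Y) := hk'
    rw [hk2] at h3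
    exact hab (mem_centralizer_iff.1 h3 a0 ha0)
  -- the homomorphism of `S` to `Y`
  obtain ⟨φ, hφ⟩ : ∃ φ : S →* Y, ∀ s, φ s = ψ ⟨Pi.mulSingle w s, hw s⟩ :=
    ⟨ψ.comp ((MonoidHom.mulSingle (fun _ : Ω => S) w).codRestrict K hw), fun s => rfl⟩
  have hconj : ∀ (k : K) (s : S),
      ψ k * φ s * (ψ k)⁻¹ = φ ((k : Ω → S) w * s * ((k : Ω → S) w)⁻¹) := by
    intro k s
    rw [hφ, hφ, ← map_inv, ← map_mul, ← map_mul]
    congr 1
    apply Subtype.ext
    exact M13_single _ w s
  have hinj : Function.Injective φ := by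
    rw [← MonoidHom.ker_eq_bot_iff]
    refine (φ.normal_ker.eq_bot_or_eq_top).resolve_right fun ht => ?_
    have h1 : s0 ∈ φ.ker := by rw [ht]; exact mem_top _
    rw [MonoidHom.mem_ker, hφ] at h1
    apply hne
    rw [h1, one_mul, mul_one]
  have hSM : ∀ s, φ s ∈ M := by
    have hTn : (M.comap φ).Normal := inferInstance
    rcases hTn.eq_bot_or_eq_top with h1 | h1
    · exfalso
      apply hne
      obtain ⟨k, hk⟩ := hMr hy0
      have h2 : y0 * φ s0 * y0⁻¹ * (φ s0)⁻¹ =
          φ ((k : Ω → S) w * s0 * ((k : Ω → S) w)⁻¹ * s0⁻¹) := by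
        rw [map_mul, ← hconj, hk, map_inv]
      have h3 : y0 * φ s0 * y0⁻¹ * (φ s0)⁻¹ ∈ M := by
        have h4 := hM.conj_mem _ (M.inv_mem hy0) (φ s0)
        have h5 := M.mul_mem hy0 h4
        have e : y0 * (φ s0 * y0⁻¹ * (φ s0)⁻¹) = y0 * φ s0 * y0⁻¹ * (φ s0)⁻¹ := by group
        rwa [e] at h5
      have h4 : (k : Ω → S) w * s0 * ((k : Ω → S) w)⁻¹ * s0⁻¹ ∈ M.comap φ := by
        rw [mem_comap, ← h2]
        exact h3
      rw [h1, mem_bot] at h4
      rw [h4, map_one, mul_inv_eq_one, mul_inv_eq_iff_eq_mul] at h2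
      rw [← hφ]
      exact h2
    · intro s
      have : s ∈ M.comap φ := by rw [h1]; exact mem_top _
      exact this
  -- inner type
  have e0 : S ≃* φ.range := MonoidHom.ofInjective hinj
  apply hInn
  refine ⟨φ.range, ?_, ?_, ?_, ?_, hiso S φ.range ⟨e0⟩ hgood⟩
  · rintro _ ⟨s, rfl⟩
    exact hSM s
  · rintro y hy _ ⟨s, rfl⟩
    obtain ⟨k, rfl⟩ := hMr hy
    exact ⟨_, (hconj k s).symm⟩
  · have := e0.symm.toEquiv.nontrivial
    exact IsSimpleGroup.isSimpleGroup_of_surjective e0.toMonoidHom e0.surjective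
  · intro y hy
    obtain ⟨g, rfl⟩ := hf y
    obtain ⟨u, x, hx, hg⟩ := M13_dec h (g : G)
    have hc : ∀ s, ∃ hk : Pi.mulSingle (x • w) (u (x • w) * s * (u (x • w))⁻¹) ∈ K,
        f g * φ s * (f g)⁻¹ = ψ ⟨Pi.mulSingle (x • w) (u (x • w) * s * (u (x • w))⁻¹), hk⟩ := by
      intro s
      have h1 := M13_conj h u hx w s
      rw [← hg] at h1
      have hk : Pi.mulSingle (x • w) (u (x • w) * s * (u (x • w))⁻¹) ∈ K := by
        rw [hKm, ← h1]
        exact H.mul_mem (H.mul_mem g.2 ((hKm _).1 (hw s))) (H.inv_mem g.2)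
      refine ⟨hk, ?_⟩
      rw [hφ, hψ, hψ, ← map_inv, ← map_mul, ← map_mul]
      congr 1
      apply Subtype.ext
      exact h1
    by_cases hxw : x • w = w
    · refine ⟨φ (u w), ⟨_, rfl⟩, ?_⟩
      rintro _ ⟨s, rfl⟩
      obtain ⟨hk, h1⟩ := hc s
      rw [h1, ← map_inv, ← map_mul, ← map_mul, hφ]
      congr 1
      apply Subtype.ext
      show (Pi.mulSingle (x • w) (u (x • w) * s * (u (x • w))⁻¹) : Ω → S) =
        Pi.mulSingle w (u w * s * (u w)⁻¹)
      rw [hxw]
    · exfalso
      obtain ⟨a, b, hab'⟩ := hna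
      apply hab'
      have h1 : ∀ s t, f g * φ s * (f g)⁻¹ * φ t = φ t * (f g * φ s * (f g)⁻¹) := by
        intro s t
        obtain ⟨hk, h1⟩ := hc s
        rw [h1, hφ, ← map_mul, ← map_mul]
        congr 1
        apply Subtype.ext
        exact Pi.mulSingle_commute (f := fun _ : Ω => S) hxw _ _
      obtain ⟨t, ht⟩ := hy (φ b) ⟨b, rfl⟩
      have h2 := h1 a t
      rw [ht] at h2
      apply hinj
      rw [map_mul, map_mul]
      have h3 : f g * (φ a * φ b) * (f g)⁻¹ = f g * (φ b * φ a) * (f g)⁻¹ := by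
        calc f g * (φ a * φ b) * (f g)⁻¹ = f g * φ a * (f g)⁻¹ * (f g * φ b * (f g)⁻¹) := by group
          _ = (f g * φ b * (f g)⁻¹) * (f g * φ a * (f g)⁻¹) := h2
          _ = f g * (φ b * φ a) * (f g)⁻¹ := by group
      exact mul_left_cancel (mul_right_cancel h3)


section

open scoped BigOperators Classical

/-- a group with normal subgroups `M i` with solvable intersection such that no quotient `G / M i` has
such sections -/
theorem Sec3_of_sub {p : ℕ} [hp : Fact p.Prime] (𝔊 : (S : Type) → [Group S] → Prop)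
    {G : Type} [Group G] [Finite G] {ι : Type} [Finite ι] (M : ι → Subgroup G)
    [hM : ∀ i, (M i).Normal] (hsol : Group.IsSolvable (⨅ i, M i : Subgroup G))
    (hq : ∀ i, Sec3 p 𝔊 (G ⧸ M i)) : Sec3 p 𝔊 G := by
  intro Y _ H f hi hf hbad
  have hbad' := hbad
  haveI : Finite Y := Finite.of_surjective f hf
  obtain ⟨M₀, hM₀, hmin, ⟨a, ha, b, hb', hab⟩, -, -, -⟩ := hbad
  have hnb : ⁅M₀, M₀⁆ ≠ ⊥ := by
    intro h
    apply hab
    have h1 := Subgroup.commutator_eq_bot_iff_le_centralizer.mp h ha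
    exact (Subgroup.mem_centralizer_iff.mp h1 b hb').symm
  haveI := hM₀
  have hperf : M₀ ≤ ⁅M₀, M₀⁆ := hmin _ inferInstance hnb
  by_cases h : ∃ i, ((M i).subgroupOf H).map f = ⊥
  · obtain ⟨i, h0⟩ := h
    have hs : Function.Surjective ((QuotientGroup.mk' (M i)).subgroupMap H) :=
      MonoidHom.subgroupMap_surjective _ _
    have hker : ((QuotientGroup.mk' (M i)).subgroupMap H).ker ≤ f.ker := by
      intro x hx
      have h1 : QuotientGroup.mk' (M i) (x : G) = 1 := congrArg Subtype.val hx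
      have h2 : x ∈ (M i).subgroupOf H :=
        Subgroup.mem_subgroupOf.mpr ((QuotientGroup.eq_one_iff _).mp h1)
      have h3 : f x ∈ ((M i).subgroupOf H).map f := ⟨x, h2, rfl⟩
      rw [h0, Subgroup.mem_bot] at h3
      exact h3
    refine hq i Y (H.map (QuotientGroup.mk' (M i)))
      (((QuotientGroup.mk' (M i)).subgroupMap H).liftOfSurjective hs ⟨f, hker⟩) ?_ ?_ hbad'
    · exact fun h' => hi (h'.trans (Subgroup.index_map_dvd H (QuotientGroup.mk'_surjective (M i))))
    · intro y
      obtain ⟨z, rfl⟩ := hf y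
      exact ⟨_, MonoidHom.liftOfRightInverse_comp_apply _ _ _ ⟨f, hker⟩ z⟩
  · push Not at h
    haveI := Fintype.ofFinite ι
    have key : ∀ s : Finset ι, M₀ ≤ ((⨅ i ∈ s, M i).subgroupOf H).map f := by
      intro s
      induction s using Finset.induction_on with
      | empty =>
        intro y _
        obtain ⟨x, rfl⟩ := hf y
        exact ⟨x, by simp, rfl⟩
      | insert i s _ ih =>
        have h1 : M₀ ≤ ((M i).subgroupOf H).map f :=
          hmin _ (Subgroup.Normal.map inferInstance f hf) (h i)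
        refine hperf.trans ((Subgroup.commutator_mono h1 ih).trans ?_)
        rw [← Subgroup.map_commutator]
        refine Subgroup.map_mono ?_
        haveI : (⨅ j ∈ s, M j : Subgroup G).Normal := by
          haveI : ∀ j, (⨅ _ : j ∈ s, M j : Subgroup G).Normal := fun j =>
            Subgroup.normal_iInf_normal fun _ => hM j
          exact Subgroup.normal_iInf_normal this
        refine (Subgroup.commutator_le_inf _ _).trans ?_
        intro x hx
        rw [Subgroup.mem_inf, Subgroup.mem_subgroupOf, Subgroup.mem_subgroupOf] at hx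
        rw [Subgroup.mem_subgroupOf, Finset.iInf_insert, Subgroup.mem_inf]
        exact hx
    have h5 : M₀ ≤ ((⨅ i, M i).subgroupOf H).map f := by
      have := key Finset.univ
      simpa using this
    -- so `M₀` is solvable
    haveI := hsol
    haveI hs1 : Group.IsSolvable ((⨅ i, M i).subgroupOf H) := by
      have h1 : Function.Injective ((H.subtype.comp ((⨅ i, M i).subgroupOf H).subtype).codRestrict
          (⨅ i, M i) (fun x => x.2)) := by
        intro x y h
        have h2 := congrArg (fun z : (⨅ i, M i : Subgroup G) => (z : G)) h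
        exact Subtype.ext (Subtype.ext h2)
      exact Group.isSolvable_of_isSolvable_injective h1
    haveI hs2 : Group.IsSolvable (((⨅ i, M i).subgroupOf H).map f) :=
      Group.isSolvable_of_surjective (f := f.subgroupMap ((⨅ i, M i).subgroupOf H))
        (MonoidHom.subgroupMap_surjective _ _)
    haveI hs3 : Group.IsSolvable M₀ :=
      Group.isSolvable_of_isSolvable_injective (Subgroup.inclusion_injective h5)
    have hne : M₀ ≠ ⊥ := by
      rintro rfl
      rw [Subgroup.mem_bot] at ha hb'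
      exact hab (by rw [ha, hb'])
    haveI : Nontrivial M₀ := (Subgroup.nontrivial_iff_ne_bot M₀).mpr hne
    have h6 := Group.IsSolvable.commutator_lt_top_of_nontrivial M₀
    apply h6.ne
    rw [eq_top_iff]
    intro x _
    have h7 := hperf x.2
    rw [← Subgroup.map_subtype_commutator] at h7
    obtain ⟨z, hz, hzx⟩ := h7
    have : z = x := Subtype.ext hzx
    rwa [← this]

end

end Pool.Agent.Zk54.MR
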