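import Pool.Agent.Zk54.MQ.DefD

/-!
# Obstructions whose simple factors are not of inner, cyclic or prime type
-/

set_option autoImplicit false
set_option linter.unusedSectionVars false

namespace Pool.Agent.Zk54.MR

open Pool.Agent.Zk54.MQ (Inn Cyc)

/-- `M` has a simple normal subgroup `S` of order prime to `p` on which the elements of `Y` induce automorphisms
of order prime to `p` -/
def Prm (p : ℕ) {Y : Type} [Group Y] (M : Subgroup Y) : Prop :=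
  ∃ S : Subgroup Y, S ≤ M ∧ (∀ m ∈ M, ∀ s ∈ S, m * s * m⁻¹ ∈ S) ∧ IsSimpleGroup S ∧
    ¬ p ∣ Nat.card S ∧ ∀ y : Y, (∀ s ∈ S, y * s * y⁻¹ ∈ S) →
      ∃ k : ℕ, ¬ p ∣ k ∧ ∀ s ∈ S, y ^ k * s * (y ^ k)⁻¹ = s

/-- the obstructions which are not of inner, cyclic or prime type -/
def Bad3 (p : ℕ) (𝔊 : (S : Type) → [Group S] → Prop) (Y : Type) [Group Y] : Prop :=
  ∃ M : Subgroup Y, M.Normal ∧ (∀ L : Subgroup Y, L.Normal → L ≠ ⊥ → M ≤ L) ∧
    (∃ a ∈ M, ∃ b ∈ M, a * b ≠ b * a) ∧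
    (∃ Q : Sylow p Y, ¬ IsCyclic Q ∧ M ⊔ Subgroup.normalizer ((Q : Subgroup Y) : Set Y) = ⊤) ∧
    ¬ Inn 𝔊 M ∧ ¬ Cyc p M ∧ ¬ Prm p M

/-- the groups without such sections -/
def Sec3 (p : ℕ) (𝔊 : (S : Type) → [Group S] → Prop) (G : Type) [Group G] : Prop :=
  ∀ (Y : Type) [Group Y] (H : Subgroup G) (f : H →* Y), ¬ p ∣ H.index → Function.Surjective f →
    ¬ Bad3 p 𝔊 Y

end Pool.Agent.Zk54.MR
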