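import Pool.Agent.Zk47.MC.E11
import Pool.Agent.Zk54.MR.DefR

/-!
# Groups all of whose composition factors of subgroups of index prime to `p` are tame
-/

set_option autoImplicit false
set_option linter.unusedSectionVars false
set_option linter.style.haveILetI false

namespace Pool.Agent.Zk54.MR

open Subgroup
open Pool.Agent.Zk54.MQ hiding Bad3 Sec3
open Pool.Agent.Zk47.MC (Out1 cyc_of)

/-- the automorphism group has order prime to `p`, or the Sylow `p`-subgroups are nontrivial and cyclic and the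
outer automorphism group is cyclic of order prime to `p` -/
def TmS (p : ℕ) (T : Type) [Group T] : Prop :=
  ¬ p ∣ Nat.card (MulAut T) ∨ (∀ Q : Sylow p T, IsCyclic Q) ∧ Out1 p T

/-- the nonabelian simple quotients of the normal subgroups of the normal subgroups of the subgroups of index
prime to `p` are tame -/
def Fct (p : ℕ) (G : Type) [Group G] : Prop :=
  ∀ (C B A : Subgroup G) (T : Type) [Group T] (f : A →* T), ¬ p ∣ C.index →
    B ≤ C → (∀ c ∈ C, ∀ b ∈ B, c * b * c⁻¹ ∈ B) → A ≤ B → (∀ b ∈ B, ∀ a ∈ A, b * a * b⁻¹ ∈ A) →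
    Function.Surjective f → IsSimpleGroup T → (∃ a b : T, a * b ≠ b * a) → TmS p T

theorem prm_of {p : ℕ} [Fact p.Prime] {Y : Type} [Group Y] [Finite Y] (M S : Subgroup Y)
    (hSM : S ≤ M) (hSn : ∀ m ∈ M, ∀ s ∈ S, m * s * m⁻¹ ∈ S) (hSs : IsSimpleGroup S)
    (hab : ∃ a b : S, a * b ≠ b * a) (hT : ¬ p ∣ Nat.card (MulAut S)) : Prm p M := by
  haveI : Finite (MulAut S) := by
    refine Finite.of_injective (fun a : MulAut S => (a : S → S)) fun a b h => ?_
    ext x
    exact congrArg Subtype.val (congrFun h x)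
  have hc : Subgroup.center S = ⊥ := by
    refine (Subgroup.Normal.eq_bot_or_eq_top (inferInstance : (Subgroup.center S).Normal)).resolve_right
      fun h => ?_
    obtain ⟨a, b, hab⟩ := hab
    apply hab
    have h1 : b ∈ Subgroup.center S := by rw [h]; exact mem_top _
    exact Subgroup.mem_center_iff.mp h1 a
  refine ⟨S, hSM, hSn, hSs, fun hd => hT (hd.trans ?_), fun y hy => ?_⟩
  · refine Subgroup.card_dvd_of_injective (MulAut.conj : S →* MulAut S) ?_
    rw [injective_iff_map_eq_one]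
    intro x hx
    have h1 : x ∈ Subgroup.center S := by
      rw [Subgroup.mem_center_iff]
      intro g
      have h2 := congrArg (fun f : MulAut S => f g) hx
      have h3 : x * g * x⁻¹ = g := h2
      exact (mul_inv_eq_iff_eq_mul.mp h3).symm
    rw [hc, Subgroup.mem_bot] at h1
    exact h1
  · have hy' : y ∈ normalizer (S : Set Y) := mem_normalizer_fintype hy
    refine ⟨Nat.card (MulAut S), hT, fun s hs => ?_⟩
    have h1 : S.normalizerMonoidHom (⟨y, hy'⟩ ^ Nat.card (MulAut S)) = 1 := by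
      rw [map_pow]
      exact pow_card_eq_one'
    have h2 := congrArg (fun f : MulAut S => ((f ⟨s, hs⟩ : S) : Y)) h1
    exact h2

/-- the reduction: extensions -/
theorem sec3_fct {p : ℕ} [hp : Fact p.Prime] (𝔊 : (S : Type) → [Group S] → Prop)
    {G : Type} [Group G] [Finite G] (N : Subgroup G) [N.Normal] (hN : Fct p N)
    (hq : Sec3 p 𝔊 (G ⧸ N)) : Sec3 p 𝔊 G := by
  intro Y _ H f hi hf hbad
  have hbad' := hbad
  haveI : Finite Y := Finite.of_surjective f hf
  obtain ⟨M, hM, hmin, hab, -, -, hCyc, hPrm⟩ := hbad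
  -- the part of `N`
  let K : Subgroup N := H.subgroupOf N
  have hKi : ¬ p ∣ K.index := M13_relIndex H N hi
  let ψ : K →* Y :=
    { toFun := fun k => f ⟨(k : N), k.2⟩
      map_one' := map_one f
      map_mul' := fun a b => by
        rw [← map_mul]
        rfl }
  have hψ : ∀ k : K, ψ k = f ⟨(k : N), k.2⟩ := fun k => rfl
  have hr : ψ.range.Normal := by
    constructor
    rintro _ ⟨k, rfl⟩ y
    obtain ⟨g, rfl⟩ := hf y
    have h1 : (g : G) * (k : N) * (g : G)⁻¹ ∈ N := Normal.conj_mem inferInstance _ (k : N).2 _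
    have h2 : (g : G) * (k : N) * (g : G)⁻¹ ∈ H := H.mul_mem (H.mul_mem g.2 k.2) (H.inv_mem g.2)
    refine ⟨⟨⟨_, h1⟩, h2⟩, ?_⟩
    rw [hψ, hψ, ← map_inv, ← map_mul, ← map_mul]
    rfl
  by_cases h0 : ψ.range = ⊥
  · -- `Y` is a section of `G / N`
    have hs : Function.Surjective ((QuotientGroup.mk' N).subgroupMap H) :=
      MonoidHom.subgroupMap_surjective _ _
    have hker : ((QuotientGroup.mk' N).subgroupMap H).ker ≤ f.ker := by
      intro x hx
      have h1 : QuotientGroup.mk' N (x : G) = 1 := congrArg Subtype.val hx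
      have h2 : (x : G) ∈ N := (QuotientGroup.eq_one_iff _).mp h1
      have h3 : ψ ⟨⟨x, h2⟩, x.2⟩ ∈ ψ.range := ⟨_, rfl⟩
      rw [h0, Subgroup.mem_bot] at h3
      exact h3
    refine hq Y (H.map (QuotientGroup.mk' N))
      (((QuotientGroup.mk' N).subgroupMap H).liftOfSurjective hs ⟨f, hker⟩) ?_ ?_ hbad'
    · exact fun h' => hi (h'.trans (Subgroup.index_map_dvd H (QuotientGroup.mk'_surjective N)))
    · intro y
      obtain ⟨z, rfl⟩ := hf y
      exact ⟨_, MonoidHom.liftOfRightInverse_comp_apply _ _ _ ⟨f, hker⟩ z⟩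
  have hMr : M ≤ ψ.range := hmin _ hr h0
  obtain ⟨S, hSM, hSn, hSs, a0, ha0, b0, hb0, hab0⟩ := e9_simple M hM hmin hab
  have hT : TmS p S := by
    let A : Subgroup N := (S.comap ψ).map K.subtype
    let B : Subgroup N := (M.comap ψ).map K.subtype
    have hAK : A ≤ K := map_subtype_le _
    have hA : ∀ x : A, (ψ.comp (Subgroup.inclusion hAK)) x ∈ S := by
      rintro ⟨x, k, hk, rfl⟩
      exact hk
    let f' : A →* S := (ψ.comp (Subgroup.inclusion hAK)).codRestrict S hA
    refine hN K B A S f' hKi (map_subtype_le _) ?_ (map_mono (comap_mono hSM)) ?_ ?_ hSs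
      ⟨⟨a0, ha0⟩, ⟨b0, hb0⟩, fun h => hab0 (congrArg Subtype.val h)⟩
    · rintro c hc _ ⟨b, hb, rfl⟩
      refine ⟨⟨c, hc⟩ * b * ⟨c, hc⟩⁻¹, ?_, rfl⟩
      show ψ _ ∈ M
      rw [map_mul, map_mul, map_inv]
      exact hM.conj_mem _ hb _
    · rintro _ ⟨b, hb, rfl⟩ _ ⟨a, ha, rfl⟩
      refine ⟨b * a * b⁻¹, ?_, rfl⟩
      show ψ _ ∈ S
      rw [map_mul, map_mul, map_inv]
      exact hSn _ hb _ ha
    · rintro ⟨s, hs⟩
      obtain ⟨k, hk⟩ := hMr (hSM hs)
      refine ⟨⟨k, ⟨k, ?_, rfl⟩⟩, Subtype.ext hk⟩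
      show ψ k ∈ S
      rw [hk]
      exact hs
  rcases hT with hT | ⟨hcyc, hT⟩
  · exact hPrm (prm_of M S hSM hSn hSs
      ⟨⟨a0, ha0⟩, ⟨b0, hb0⟩, fun h => hab0 (congrArg Subtype.val h)⟩ hT)
  · exact hCyc (cyc_of M S hSM hSn hSs hT hcyc (MulEquiv.refl S))

theorem fct_surj {p : ℕ} {G F : Type} [Group G] [Group F] (q : G →* F)
    (hq : Function.Surjective q) (h : Fct p G) : Fct p F := by
  intro C B A T _ f hC hBC hB hAB hA hf hT hab
  refine h (C.comap q) (B.comap q) (A.comap q) T (f.comp (q.subgroupComap A)) ?_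
    (comap_mono hBC) ?_ (comap_mono hAB) ?_ ?_ hT hab
  · rwa [index_comap_of_surjective _ hq]
  · intro c hc b hb
    rw [mem_comap] at hc hb ⊢
    rw [map_mul, map_mul, map_inv]
    exact hB _ hc _ hb
  · intro c hc b hb
    rw [mem_comap] at hc hb ⊢
    rw [map_mul, map_mul, map_inv]
    exact hA _ hc _ hb
  · refine hf.comp ?_
    rintro ⟨y, hy⟩
    obtain ⟨x, rfl⟩ := hq y
    exact ⟨⟨x, hy⟩, rfl⟩

theorem fct_sol {p : ℕ} {G : Type} [Group G] (h : Group.IsSolvable G) : Fct p G := by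
  intro C B A T _ f hC hBC hB hAB hA hf hT hab
  haveI := h
  haveI : Group.IsSolvable A := Group.isSolvable_of_isSolvable_injective A.subtype_injective
  have h1 : Group.IsSolvable T := Group.isSolvable_of_surjective hf
  obtain ⟨a, b, hab⟩ := hab
  exact absurd ((IsSimpleGroup.comm_iff_isSolvable (G := T)).2 h1 a b) hab

/-- extensions -/
theorem fct_ext {p : ℕ} [hp : Fact p.Prime] {N G F : Type} [Group N] [Group G] [Finite G] [Group F]
    (j : N →* G) (q : G →* F) (hq : Function.Surjective q) (hk : q.ker = j.range)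
    (hN : Fct p N) (hF : Fct p F) : Fct p G := by
  intro C B A T _ f hC hBC hB hAB hA hf hT hab
  haveI hnr : j.range.Normal := by
    rw [← hk]
    infer_instance
  let f' : (A.comap j : Subgroup N) →* T := f.comp (j.subgroupComap A)
  have hf' : ∀ x : (A.comap j : Subgroup N), f' x = f ⟨j x, x.2⟩ := fun x => rfl
  have hn : f'.range.Normal := by
    constructor
    rintro _ ⟨x, rfl⟩ t
    obtain ⟨a, rfl⟩ := hf t
    have h1 : (a : G) * j x * (a : G)⁻¹ ∈ j.range := hnr.conj_mem _ ⟨x, rfl⟩ _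
    obtain ⟨y, hy⟩ := h1
    have h2 : j y ∈ A := by
      rw [hy]
      exact A.mul_mem (A.mul_mem a.2 x.2) (A.inv_mem a.2)
    refine ⟨⟨y, h2⟩, ?_⟩
    rw [hf', hf', ← map_inv, ← map_mul, ← map_mul]
    exact congrArg f (Subtype.ext hy)
  rcases hn.eq_bot_or_eq_top with h0 | h0
  · -- the image in `F`
    have hs : Function.Surjective (q.subgroupMap A) := MonoidHom.subgroupMap_surjective _ _
    have hker : (q.subgroupMap A).ker ≤ f.ker := by
      intro x hx
      have h1 : q (x : G) = 1 := congrArg Subtype.val hx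
      have h2 : (x : G) ∈ j.range := by
        rw [← hk]
        exact h1
      obtain ⟨y, hy⟩ := h2
      have hyA : j y ∈ A := by
        rw [hy]
        exact x.2
      have h3 : f' ⟨y, hyA⟩ ∈ f'.range := ⟨_, rfl⟩
      rw [h0, Subgroup.mem_bot, hf'] at h3
      rw [MonoidHom.mem_ker, ← h3]
      exact congrArg f (Subtype.ext hy.symm)
    refine hF (C.map q) (B.map q) (A.map q) T ((q.subgroupMap A).liftOfSurjective hs ⟨f, hker⟩)
      ?_ (map_mono hBC) ?_ (map_mono hAB) ?_ ?_ hT hab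
    · exact fun h' => hC (h'.trans (Subgroup.index_map_dvd C hq))
    · rintro _ ⟨c, hc, rfl⟩ _ ⟨b, hb, rfl⟩
      exact ⟨c * b * c⁻¹, hB _ hc _ hb, by rw [map_mul, map_mul, map_inv]⟩
    · rintro _ ⟨c, hc, rfl⟩ _ ⟨b, hb, rfl⟩
      exact ⟨c * b * c⁻¹, hA _ hc _ hb, by rw [map_mul, map_mul, map_inv]⟩
    · intro y
      obtain ⟨z, rfl⟩ := hf y
      exact ⟨_, MonoidHom.liftOfRightInverse_comp_apply _ _ _ ⟨f, hker⟩ z⟩
  · refine hN (C.comap j) (B.comap j) (A.comap j) T f' ?_ (comap_mono hBC) ?_ (comap_mono hAB) ?_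
      (MonoidHom.range_eq_top.1 h0) hT hab
    · rw [index_comap]
      exact M13_relIndex C j.range hC
    · intro c hc b hb
      rw [mem_comap] at hc hb ⊢
      rw [map_mul, map_mul, map_inv]
      exact hB _ hc _ hb
    · intro c hc b hb
      rw [mem_comap] at hc hb ⊢
      rw [map_mul, map_mul, map_inv]
      exact hA _ hc _ hb

theorem tms_iso {p : ℕ} [hp : Fact p.Prime] {S T : Type} [Group S] [Finite S] [Group T]
    (e : S ≃* T) (h : TmS p S) : TmS p T := by
  let c : MulAut S ≃* MulAut T := MulAut.congr e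
  have hc : ∀ (x : MulAut S) (t : T), c x t = e (x (e.symm t)) := fun x t => rfl
  rcases h with h | ⟨h1, hd, a, b, hb, ⟨s₀, hs₀⟩, hgen⟩
  · left
    rwa [← Nat.card_congr c.toEquiv]
  · right
    refine ⟨e9_sylow e h1, ?_, c a, b, hb, ⟨e s₀, fun t => ?_⟩, fun x => ?_⟩
    · rwa [Nat.card_congr e.toEquiv] at hd
    · rw [← map_pow, hc, hs₀]
      simp
    · obtain ⟨i, s, hs⟩ := hgen (c.symm x)
      refine ⟨i, e s, fun t => ?_⟩
      have h3 : x t = c (c.symm x) t := by rw [MulEquiv.apply_symm_apply]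
      rw [h3, hc, hs, ← map_pow, hc]
      simp

/-- simple groups -/
theorem fct_simple {p : ℕ} [hp : Fact p.Prime] {S : Type} [Group S] [Finite S]
    (hSs : IsSimpleGroup S) (hS : TmS p S)
    (hsub : ∀ K : Subgroup S, ¬ p ∣ K.index → K = ⊤ ∨ Fct p K) : Fct p S := by
  intro C B A T _ f hC hBC hB hAB hA hf hT hab
  rcases hsub C hC with h0 | h0
  · subst h0
    obtain ⟨a, b, hab'⟩ := hab
    have hne : A ≠ ⊥ := by
      rintro rfl
      haveI : Subsingleton T := hf.subsingleton
      exact hab' (Subsingleton.elim _ _)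
    have hB1 : B.Normal := ⟨fun b hb c => hB c (mem_top c) b hb⟩
    have hB2 : B = ⊤ := hB1.eq_bot_or_eq_top.resolve_left (fun h => hne (le_bot_iff.1 (h ▸ hAB)))
    subst hB2
    have hA1 : A.Normal := ⟨fun b hb c => hA c (mem_top c) b hb⟩
    have hA2 : A = ⊤ := hA1.eq_bot_or_eq_top.resolve_left hne
    subst hA2
    let g : S →* T := f.comp (Subgroup.topEquiv (G := S)).symm.toMonoidHom
    have hg : Function.Surjective g := hf.comp (Subgroup.topEquiv (G := S)).symm.surjective
    have hinj : Function.Injective g := by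
      rw [← MonoidHom.ker_eq_bot_iff]
      refine (g.normal_ker.eq_bot_or_eq_top).resolve_right fun ht => ?_
      obtain ⟨x, hx⟩ := exists_ne (1 : T)
      obtain ⟨y, rfl⟩ := hg x
      apply hx
      have : y ∈ g.ker := by rw [ht]; exact mem_top _
      exact this
    exact tms_iso (MulEquiv.ofBijective g ⟨hinj, hg⟩) hS
  · refine h0 ⊤ (B.subgroupOf C) (A.subgroupOf C) T
      (f.comp (Subgroup.subgroupOfEquivOfLe (hAB.trans hBC)).toMonoidHom) ?_ le_top ?_ ?_ ?_ ?_ hT hab
    · rw [index_top]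
      exact hp.out.one_lt.ne' ∘ Nat.dvd_one.1
    · rintro c - b hb
      exact hB _ c.2 _ hb
    · exact comap_mono hAB
    · intro b hb a ha
      exact hA _ hb _ ha
    · exact hf.comp (Subgroup.subgroupOfEquivOfLe (hAB.trans hBC)).surjective

/-- `PSL_2(p)` -/
theorem fct_TT {p : ℕ} [hp : Fact p.Prime] {S : Type} [Group S] [Finite S] (h : TT p S) :
    Fct p S := by
  obtain ⟨h1, -, h3, h4, h5, h6⟩ := h
  exact fct_simple h1 (Or.inr ⟨h4, h3, h6⟩) fun K hK => (h5 K hK).imp id fct_sol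

theorem fct_prod {p : ℕ} [_hp : Fact p.Prime] {A B : Type} [Group A] [Finite A] [Group B] [Finite B]
    (hA : Fct p A) (hB : Fct p B) : Fct p (A × B) := by
  refine fct_ext (MonoidHom.inl A B) (MonoidHom.snd A B) (fun b => ⟨(1, b), rfl⟩) ?_ hA hB
  ext x
  constructor
  · intro hx
    exact ⟨x.1, Prod.ext rfl hx.symm⟩
  · rintro ⟨a, rfl⟩
    rfl

theorem fct_pi {p : ℕ} [hp : Fact p.Prime] {Ω A : Type} [Finite Ω] [Group A] [Finite A]
    (h : Fct p A) : Fct p (Ω → A) := by
  have key : ∀ n : ℕ, Fct p (Fin n → A) := by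
    intro n
    induction n with
    | zero =>
      apply fct_sol
      infer_instance
    | succ n ih =>
      let e : A × (Fin n → A) →* (Fin (n + 1) → A) :=
        { toFun := fun x => Fin.cons x.1 x.2
          map_one' := by
            funext i
            refine Fin.cases ?_ (fun j => ?_) i
            · simp
            · simp
          map_mul' := fun x y => by
            funext i
            refine Fin.cases ?_ (fun j => ?_) i
            · simp
            · simp }
      refine fct_surj e (fun u => ⟨(u 0, fun i => u i.succ), ?_⟩) (fct_prod h ih)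
      funext i
      refine Fin.cases ?_ (fun j => ?_) i
      · rfl
      · rfl
  obtain ⟨n, ⟨e⟩⟩ := Finite.exists_equiv_fin Ω
  let E : (Fin n → A) →* (Ω → A) :=
    { toFun := fun u ω => u (e ω)
      map_one' := rfl
      map_mul' := fun _ _ => rfl }
  refine fct_surj E (fun u => ⟨fun i => u (e.symm i), ?_⟩) (key n)
  funext ω
  show u (e.symm (e ω)) = u ω
  rw [Equiv.symm_apply_apply]

end Pool.Agent.Zk54.MR
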