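import Pool.Agent.Zk54.C3.Z
import Pool.Agent.Zk20.C3A
import Pool.Agent.Zk67.C3B
import Pool.Agent.Zk67.C3F
import Pool.Agent.Zk52.C3B3
import Pool.Agent.Zk43.C3D
import Pool.Agent.Zk54.C3.PieceE
import Pool.Agent.Zk47.C3.PieceC

/-!
# The comparison of `G` and `N_G(P)` for a factor of order prime to `p`: all pieces
-/

set_option autoImplicit false

namespace Pool.Agent.Zk54.MR

open Pool.Agent.Zk47.C3

theorem zz : StZ :=
  Pool.Agent.Zk54.C3.t_Z Pool.Agent.Zk20.C3A.t_A Pool.Agent.Zk67.C3.t_B1 Pool.Agent.Zk52.C3.t_B3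
    t_C (Pool.Agent.Zk54.C3.t_E Pool.Agent.Zk67.C3.t_B2 Pool.Agent.Zk52.C3.t_B3 Pool.Agent.Zk67.C3.t_F Pool.Agent.Zk43.C3D.t_D)
    Pool.Agent.Zk67.C3.t_F

end Pool.Agent.Zk54.MR
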