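import Pool.Agent.Zk54.MQ.E5

/-! # The decomposition when the induced automorphisms have order prime to `p` -/

set_option autoImplicit false

noncomputable section

open scoped commutatorElement

namespace Pool.Agent.Zk54.MR

open Pool.Agent.Zk54.MQ

theorem exists_datum3 {p : ℕ} {G : Type} [Group G] [Finite G] (M S : Subgroup (G ⧸ Subgroup.center G))
    (hM : M.Normal) (hmin : ∀ L : Subgroup (G ⧸ Subgroup.center G), L.Normal → L ≠ ⊥ → M ≤ L)
    (hSM : S ≤ M) (hMS : ∀ m ∈ M, ∀ s ∈ S, m * s * m⁻¹ ∈ S) (hs : IsSimpleGroup S)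
    (hna : ∃ a ∈ M, ∃ b ∈ M, a * b ≠ b * a)
    (hpr : ∀ y : G ⧸ Subgroup.center G, (∀ s ∈ S, y * s * y⁻¹ ∈ S) →
      ∃ k : ℕ, ¬ p ∣ k ∧ ∀ s ∈ S, y ^ k * s * (y ^ k)⁻¹ = s) :
    ∃ (U : Type) (_ : Group U) (_ : Finite U) (Ω : Type) (_ : Fintype Ω) (_ : Nonempty Ω)
      (_ : MulAction G Ω) (m : (Ω → U) →* G) (α : G → Ω → MulAut U),
      commutator U = ⊤ ∧ Nonempty (U ⧸ Subgroup.center U ≃* S) ∧ WE m α ∧
      Nat.card (Subgroup.center U) ∣ Nat.card (Subgroup.center G) ∧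
      ∀ (g : G) (ω : Ω), ∃ k : ℕ, ¬ p ∣ k ∧ (α g ω) ^ k = 1 := by
  classical
  obtain ⟨q, hq⟩ : ∃ q : G →* G ⧸ Subgroup.center G, q = QuotientGroup.mk' (Subgroup.center G) :=
    ⟨_, rfl⟩
  have hqs : Function.Surjective q := by
    rw [hq]
    exact QuotientGroup.mk'_surjective _
  have hker : ∀ g, q g = 1 ↔ g ∈ Subgroup.center G := by
    intro g
    rw [← MonoidHom.mem_ker, hq, QuotientGroup.ker_mk']
  have hnc := exists_noncomm hM hmin hSM hMS hs hna
  have hMn : ∀ y ∈ M, y ∈ Subgroup.normalizer (S : Set (G ⧸ Subgroup.center G)) := fun y hy =>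
    Subgroup.mem_normalizer_fintype (hMS y hy)
  -- the subgroup `U`
  obtain ⟨T, hT⟩ : ∃ T : Subgroup G, T = S.comap q := ⟨_, rfl⟩
  obtain ⟨U₀, hU₀⟩ : ∃ U₀ : Subgroup G, U₀ = ⁅T, T⁆ := ⟨_, rfl⟩
  have hmapU : U₀.map q = S := by
    rw [hU₀, Subgroup.map_commutator, hT, Subgroup.map_comap_eq_self_of_surjective hqs]
    exact S_perfect hs hnc
  have hUS : ∀ u ∈ U₀, q u ∈ S := by
    intro u hu
    rw [← hmapU]
    exact ⟨u, hu, rfl⟩
  have hSU : ∀ s ∈ S, ∃ u ∈ U₀, q u = s := by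
    intro s hs
    rw [← hmapU] at hs
    exact hs
  have hUU : ⁅U₀, U₀⁆ = U₀ := by
    apply le_antisymm (Subgroup.commutator_le_self U₀)
    conv_lhs => rw [hU₀]
    rw [Subgroup.commutator_le]
    intro g₁ hg₁ g₂ hg₂
    have hdec : ∀ g ∈ T, ∃ u ∈ U₀, ∃ z ∈ Subgroup.center G, g = u * z := by
      intro g hg
      rw [hT, Subgroup.mem_comap] at hg
      obtain ⟨u, hu, hu'⟩ := hSU _ hg
      refine ⟨u, hu, u⁻¹ * g, ?_, by group⟩
      rw [← hker, map_mul, map_inv, hu', inv_mul_cancel]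
    obtain ⟨u₁, hu₁, z₁, hz₁, rfl⟩ := hdec g₁ hg₁
    obtain ⟨u₂, hu₂, z₂, hz₂, rfl⟩ := hdec g₂ hg₂
    have h1 : ⁅u₁ * z₁, u₂ * z₂⁆ = ⁅u₁, u₂⁆ := by
      rw [Subgroup.mem_center_iff] at hz₁ hz₂
      rw [commutatorElement_def, commutatorElement_def, mul_inv_rev, mul_inv_rev]
      calc u₁ * z₁ * (u₂ * z₂) * (z₁⁻¹ * u₁⁻¹) * (z₂⁻¹ * u₂⁻¹)
          = u₁ * (z₁ * (u₂ * z₂)) * z₁⁻¹ * u₁⁻¹ * z₂⁻¹ * u₂⁻¹ := by group
        _ = u₁ * ((u₂ * z₂) * z₁) * z₁⁻¹ * u₁⁻¹ * z₂⁻¹ * u₂⁻¹ := by rw [hz₁ (u₂ * z₂)]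
        _ = (u₁ * u₂) * (z₂ * u₁⁻¹) * z₂⁻¹ * u₂⁻¹ := by group
        _ = (u₁ * u₂) * (u₁⁻¹ * z₂) * z₂⁻¹ * u₂⁻¹ := by rw [hz₂ u₁⁻¹]
        _ = u₁ * u₂ * u₁⁻¹ * u₂⁻¹ := by group
    rw [h1]
    exact Subgroup.commutator_mem_commutator hu₁ hu₂
  have hperf : commutator U₀ = ⊤ := by
    apply Subgroup.map_injective U₀.subtype_injective
    rw [Subgroup.map_subtype_commutator, hUU, ← MonoidHom.range_eq_map, Subgroup.range_subtype]
  have hcenU : ∀ u : U₀, u ∈ Subgroup.center U₀ ↔ (u : G) ∈ Subgroup.center G := by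
    intro u
    constructor
    · intro hu
      rw [← hker]
      apply S_center hs hnc _ (hUS _ u.2)
      intro s' hs'
      obtain ⟨v, hv, rfl⟩ := hSU s' hs'
      rw [← map_mul, ← map_mul]
      congr 1
      exact (congrArg Subtype.val (Subgroup.mem_center_iff.1 hu ⟨v, hv⟩)).symm
    · intro hu
      rw [Subgroup.mem_center_iff] at hu ⊢
      intro g
      exact Subtype.ext (hu g)
  -- the set `Ω`
  obtain ⟨N, hN⟩ : ∃ N : Subgroup G,
      N = (Subgroup.normalizer (S : Set (G ⧸ Subgroup.center G))).comap q := ⟨_, rfl⟩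
  have hNmem : ∀ g, g ∈ N ↔ q g ∈ Subgroup.normalizer (S : Set (G ⧸ Subgroup.center G)) := by
    intro g
    rw [hN, Subgroup.mem_comap]
  have hNU : ∀ g ∈ N, g ∈ Subgroup.normalizer (U₀ : Set G) := by
    intro g hg
    rw [hNmem] at hg
    have h1 : U₀.map (MulAut.conj g).toMonoidHom = U₀ := by
      rw [hU₀, Subgroup.map_commutator]
      have h2 : T.map (MulAut.conj g).toMonoidHom = T := by
        ext x
        rw [Subgroup.mem_map]
        constructor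
        · rintro ⟨y, hy, rfl⟩
          rw [hT, Subgroup.mem_comap] at hy ⊢
          change q (g * y * g⁻¹) ∈ S
          rw [map_mul, map_mul, map_inv]
          exact (hg _).1 hy
        · intro hx
          refine ⟨g⁻¹ * x * g, ?_, ?_⟩
          · rw [hT, Subgroup.mem_comap] at hx ⊢
            apply (hg _).2
            rw [← map_inv, ← map_mul, ← map_mul]
            have e : g * (g⁻¹ * x * g) * g⁻¹ = x := by group
            rw [e]
            exact hx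
          · change g * (g⁻¹ * x * g) * g⁻¹ = x
            group
      rw [h2]
    refine Subgroup.mem_normalizer_fintype fun u hu => ?_
    have h3 : g * u * g⁻¹ ∈ U₀.map (MulAut.conj g).toMonoidHom := ⟨u, hu, rfl⟩
    rw [h1] at h3
    exact h3
  -- two elements with the same action modulo `U₀`
  have hcmp : ∀ n n' w : G, w ∈ U₀ → (∀ x ∈ S, q n * x * (q n)⁻¹ =
      q w * (q n' * x * (q n')⁻¹) * (q w)⁻¹) → ∀ v ∈ U₀, n * v * n⁻¹ = w * (n' * v * n'⁻¹) * w⁻¹ := by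
    intro n n' w hw hh v hv
    have h1 := key U₀ hperf ((w * n')⁻¹ * n) (by
      intro x hx
      rw [← hker]
      have h2 := hh (q x) (hUS x hx)
      simp only [map_mul, map_inv, mul_inv_rev, inv_inv]
      calc (q n')⁻¹ * (q w)⁻¹ * q n * q x * ((q n)⁻¹ * (q w * q n')) * (q x)⁻¹
          = (q n')⁻¹ * (q w)⁻¹ * (q n * q x * (q n)⁻¹) * (q w * q n') * (q x)⁻¹ := by group
        _ = (q n')⁻¹ * (q w)⁻¹ * (q w * (q n' * q x * (q n')⁻¹) * (q w)⁻¹) *
              (q w * q n') * (q x)⁻¹ := by rw [h2]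
        _ = 1 := by group) v hv
    calc n * v * n⁻¹ = (w * n') * ((w * n')⁻¹ * n * v * ((w * n')⁻¹ * n)⁻¹) * (w * n')⁻¹ := by group
      _ = w * (n' * v * n'⁻¹) * w⁻¹ := by rw [h1]; group
  let iF : Fintype (G ⧸ N) := Fintype.ofFinite _
  have hsurj : Function.Surjective (QuotientGroup.mk : G → G ⧸ N) := QuotientGroup.mk_surjective
  choose t ht using hsurj
  have htg : ∀ (g : G) (ω : G ⧸ N), (t (g • ω))⁻¹ * (g * t ω) ∈ N := by
    intro g ω
    rw [← QuotientGroup.eq, ht]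
    conv_lhs => rw [← ht ω]
    rfl
  let c : Subgroup.normalizer (U₀ : Set G) →* MulAut U₀ := Subgroup.normalizerMonoidHom U₀
  have hc : ∀ (n : Subgroup.normalizer (U₀ : Set G)) (u : U₀), ((c n u : U₀) : G) = n * u * (n : G)⁻¹ :=
    fun n u => rfl
  let α : G → (G ⧸ N) → MulAut U₀ := fun g ω => c ⟨_, hNU _ (htg g ω)⟩
  have hα : ∀ g ω u, ((α g ω u : U₀) : G) =
      ((t (g • ω))⁻¹ * (g * t ω)) * u * ((t (g • ω))⁻¹ * (g * t ω))⁻¹ := fun g ω u => rfl
  let ι : (G ⧸ N) → U₀ →* G := fun ω => (MulAut.conj (t ω)).toMonoidHom.comp U₀.subtype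
  have hι : ∀ ω u, ι ω u = t ω * u * (t ω)⁻¹ := fun ω u => rfl
  have hιc : ∀ ω, ∀ u ∈ Subgroup.center U₀, ι ω u = u := by
    intro ω u hu
    rw [hcenU] at hu
    rw [hι]
    have h1 := Subgroup.mem_center_iff.1 hu (t ω)
    rw [h1, mul_assoc, mul_inv_cancel, mul_one]
  obtain ⟨m, hWE⟩ := datum_aux2 ι (by
      intro ω u hu
      rw [hι, conj_eq_one_iff] at hu
      exact Subtype.ext hu) (by
      intro ω ω' hne u v
      have hn : ¬ ∀ s ∈ S, q ((t ω)⁻¹ * t ω') * s * (q ((t ω)⁻¹ * t ω'))⁻¹ ∈ S := by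
        intro h
        apply hne
        rw [← ht ω, ← ht ω', QuotientGroup.eq, hNmem]
        exact Subgroup.mem_normalizer_fintype h
      -- `a := h⁻¹ u h` centralises `U₀`
      have h1 := key U₀ hperf (((t ω)⁻¹ * t ω')⁻¹ * u * ((t ω)⁻¹ * t ω')) (by
        intro x hx
        rw [← hker]
        have h2 := comm_conj hM hSM hMS hs (q ((t ω)⁻¹ * t ω')) hn (q u) (q x) (hUS _ u.2)
          (hUS x hx)
        obtain ⟨y, hy⟩ : ∃ y, y = q ((t ω)⁻¹ * t ω') := ⟨_, rfl⟩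
        rw [← hy] at h2
        have h3 : q (((t ω)⁻¹ * t ω')⁻¹ * u * ((t ω)⁻¹ * t ω')) = y⁻¹ * q u * y := by
          rw [map_mul, map_mul, map_inv, hy]
        rw [map_mul, map_mul, map_mul, map_inv, map_inv, h3]
        calc y⁻¹ * q u * y * q x * (y⁻¹ * q u * y)⁻¹ * (q x)⁻¹
            = y⁻¹ * (q u * (y * q x * y⁻¹)) * (q u)⁻¹ * y * (q x)⁻¹ := by group
          _ = y⁻¹ * ((y * q x * y⁻¹) * q u) * (q u)⁻¹ * y * (q x)⁻¹ := by rw [h2]
          _ = 1 := by group) v v.2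
      rw [hι, hι, Commute, SemiconjBy]
      calc t ω * u * (t ω)⁻¹ * (t ω' * v * (t ω')⁻¹)
          = t ω' * ((((t ω)⁻¹ * t ω')⁻¹ * u * ((t ω)⁻¹ * t ω')) * v *
            (((t ω)⁻¹ * t ω')⁻¹ * u * ((t ω)⁻¹ * t ω'))⁻¹) * (t ω')⁻¹ *
              (t ω * u * (t ω)⁻¹) := by group
        _ = _ := by rw [h1]) (M.comap q) (by
      intro ω u
      rw [Subgroup.mem_comap, hι, map_mul, map_mul, map_inv]
      exact hM.conj_mem _ (hSM (hUS _ u.2)) _) (by
      intro g hg ω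
      rw [Subgroup.mem_comap] at hg
      rw [← ht ω]
      change ((g * t ω : G) : G ⧸ N) = (t ω : G ⧸ N)
      rw [QuotientGroup.eq, hNmem]
      apply hMn
      rw [map_mul, map_inv, map_mul, mul_inv_rev]
      have h1 := hM.conj_mem _ (M.inv_mem hg) (q (t ω))⁻¹
      rwa [inv_inv] at h1) (by
      intro ω u hu
      rw [hιc ω u hu]
      exact (hcenU u).1 hu) (by
      intro ω ω' u hu
      rw [hιc ω u hu, hιc ω' u hu]) α (by
      intro g ω v
      rw [hι, hι, hα]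
      group)
  refine ⟨U₀, inferInstance, inferInstance, G ⧸ N, inferInstance, inferInstance, inferInstance,
    m, α, hperf, ?_, hWE, ?_, ?_⟩
  · -- the quotient
    let f : U₀ →* S := (q.comp U₀.subtype).codRestrict S (fun u => hUS _ u.2)
    have hf : Function.Surjective f := by
      rintro ⟨s, hs⟩
      obtain ⟨u, hu, hu'⟩ := hSU s hs
      exact ⟨⟨u, hu⟩, Subtype.ext hu'⟩
    have hfk : Subgroup.center U₀ = f.ker := by
      ext u
      rw [hcenU, ← hker, MonoidHom.mem_ker]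
      constructor
      · intro h
        exact Subtype.ext h
      · intro h
        exact congrArg Subtype.val h
    exact ⟨(QuotientGroup.quotientMulEquivOfEq hfk).trans
      (QuotientGroup.quotientKerEquivOfSurjective f hf)⟩
  · have h1 : (Subgroup.center U₀).map U₀.subtype ≤ Subgroup.center G := by
      rintro _ ⟨u, hu, rfl⟩
      exact (hcenU u).1 hu
    have h2 := Subgroup.card_dvd_of_le h1
    rwa [Subgroup.card_map_of_injective U₀.subtype_injective] at h2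
  · intro g ω
    obtain ⟨n, hn⟩ : ∃ n, n = (t (g • ω))⁻¹ * (g * t ω) := ⟨_, rfl⟩
    have hnN : n ∈ N := by rw [hn]; exact htg g ω
    have h1 := (hNmem n).1 hnN
    obtain ⟨k, hk, hk2⟩ := hpr (q n) fun s hs => (h1 s).1 hs
    refine ⟨k, hk, ?_⟩
    have h3 : α g ω = c ⟨n, hNU _ hnN⟩ := by
      ext u
      rw [hα, hc, ← hn]
    have h4 : (α g ω) ^ k = c (⟨n, hNU _ hnN⟩ ^ k) := by rw [h3]; exact (map_pow c _ k).symm
    rw [h4]
    ext v
    have h5 : ((c (⟨n, hNU _ hnN⟩ ^ k) v : U₀) : G) = n ^ k * v * (n ^ k)⁻¹ := by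
      rw [hc]
      rfl
    have h2 := hcmp (n ^ k) 1 1 (Subgroup.one_mem _) (by
      intro x hx
      rw [map_pow, hk2 x hx, map_one]
      group) v v.2
    rw [h5, h2]
    simp

end Pool.Agent.Zk54.MR
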