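import Pool.Agent.Zk54.MQ.E8
import Pool.Agent.Zk47.C3.Def
import Pool.Agent.Zk54.MR.DefR
import Pool.Agent.Zk54.MR.Datum3

/-!
# The class of groups and the main induction: simple factors of inner, cyclic and prime type
-/

set_option autoImplicit false
set_option linter.unusedSectionVars false
set_option linter.style.haveILetI false

open scoped BigOperators Classical

noncomputable section

namespace Pool.Agent.Zk54.MR

open Pool.Agent.Zk54.MQ hiding Bad3 Bad3.bad Sec3 cls_Sec3 main_class3
open Pool.Agent.Zk47.C3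
open Pool.Agent.K3h83.IN Pool.Agent.K3h83.PI
open Pool.Agent.Helper884 Pool.Agent.K3h3.KB Pool.Agent.K3h3.MK
open Pool.Agent.H254R3.IN (IsIrr mem_Irr)
open IC (Irr)

theorem Bad3.bad {p : ℕ} {𝔊 : (S : Type) → [Group S] → Prop} {Y : Type} [Group Y]
    (h : Bad3 p 𝔊 Y) : Bad p Y := by
  obtain ⟨M, h1, h2, h3, h4, -⟩ := h
  exact ⟨M, h1, h2, h3, h4⟩

/-- E8: the class of groups -/
theorem cls_Sec3 (p : ℕ) [hp : Fact p.Prime] (𝔊 : (S : Type) → [Group S] → Prop) :
    ClsP p (Sec3 p 𝔊) where
  iso := by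
    rintro G G' _ _ _ ⟨e⟩ h Y _ H f hi hf
    refine h Y (H.comap e.toMonoidHom) (f.comp (e.toMonoidHom.subgroupComap H)) ?_ ?_
    · rwa [Subgroup.index_comap_of_surjective _ e.surjective]
    · refine hf.comp ?_
      rintro ⟨y, hy⟩
      exact ⟨⟨e.symm y, by simpa using hy⟩, Subtype.ext (e.apply_symm_apply y)⟩
  sub := by
    intro G _ _ X hX h Y _ H f hi hf
    have e : H ≃* H.map X.subtype := H.equivMapOfInjective X.subtype X.subtype_injective
    refine h Y (H.map X.subtype) (f.comp e.symm.toMonoidHom) ?_ (hf.comp e.symm.surjective)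
    rw [Subgroup.index_map_subtype, hp.out.dvd_mul]
    exact fun h' => h'.elim hi hX
  quo := by
    intro G _ _ K _ h Y _ H f hi hf
    refine h Y (H.comap (QuotientGroup.mk' K)) (f.comp ((QuotientGroup.mk' K).subgroupComap H)) ?_ ?_
    · rwa [Subgroup.index_comap_of_surjective _ (QuotientGroup.mk'_surjective K)]
    · refine hf.comp ?_
      rintro ⟨y, hy⟩
      obtain ⟨g, rfl⟩ := QuotientGroup.mk'_surjective K y
      exact ⟨⟨g, hy⟩, rfl⟩
  ext := by
    intro G _ _ K _ hK _ h Y _ H f hi hf hb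
    have hs : Function.Surjective ((QuotientGroup.mk' K).subgroupMap H) :=
      MonoidHom.subgroupMap_surjective _ _
    have hker : ((QuotientGroup.mk' K).subgroupMap H).ker ≤ f.ker := by
      intro x hx
      have h1 : QuotientGroup.mk' K (x : G) = 1 := congrArg Subtype.val hx
      have h2 : (x : G) ∈ Subgroup.center G := hK ((QuotientGroup.eq_one_iff _).mp h1)
      have h3 : f x ∈ Subgroup.center Y := by
        rw [Subgroup.mem_center_iff]
        intro y
        obtain ⟨z, rfl⟩ := hf y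
        rw [← map_mul, ← map_mul]
        congr 1
        exact Subtype.ext (Subgroup.mem_center_iff.mp h2 z)
      rw [hb.bad.center, Subgroup.mem_bot] at h3
      exact h3
    refine h Y (H.map (QuotientGroup.mk' K)) (((QuotientGroup.mk' K).subgroupMap H).liftOfSurjective hs
      ⟨f, hker⟩) ?_ ?_ hb
    · exact fun h' => hi (h'.trans (Subgroup.index_map_dvd H (QuotientGroup.mk'_surjective K)))
    · intro y
      obtain ⟨z, rfl⟩ := hf y
      exact ⟨_, MonoidHom.liftOfRightInverse_comp_apply _ _ _ ⟨f, hker⟩ z⟩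

section

variable {p : ℕ} [hp : Fact p.Prime]

/-- the case of automorphisms of order prime to `p` of a factor of order prime to `p` -/
theorem prm_core (hZ : StZ) {G : Type} [Group G] [Finite G]
    (P : Sylow p G) (hP : Red2 P) (M : Subgroup (G ⧸ Subgroup.center G)) (hM : M.Normal)
    (hmin : ∀ L : Subgroup (G ⧸ Subgroup.center G), L.Normal → L ≠ ⊥ → M ≤ L)
    (hna : ∃ a ∈ M, ∃ b ∈ M, a * b ≠ b * a) (hprm : Prm p M) :
    wt (cl p) G = wt (cl p) (NN P) := by
  obtain ⟨S, hSM, hMS, hsim, hpS, hpr⟩ := hprm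
  obtain ⟨U, _, _, Ω, _, _, _, m, α, hU, ⟨eS⟩, hW, hdvd, hα⟩ :=
    exists_datum3 (p := p) M S hM hmin hSM hMS hsim hna hpr
  have hpZ : ¬ p ∣ Nat.card (Subgroup.center U) := fun h => hP.cop (h.trans hdvd)
  have hpU : ¬ p ∣ Nat.card U := by
    rw [Subgroup.card_eq_card_quotient_mul_card_subgroup (Subgroup.center U), hp.out.dvd_mul,
      Nat.card_congr eS.toEquiv]
    exact fun h => h.elim hpS hpZ
  refine hZ m α a_S1 a_S2 Pool.Agent.K3h18.IN.t_S3b hW hpU hα P
    (hP.sup _ hW.normal fun hcen => ?_)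
  -- `S` would be trivial
  obtain ⟨ω⟩ := (inferInstance : Nonempty Ω)
  have hcomm : commutator U ≤ Subgroup.center U := by
    have key : ∀ u v : U, u * v * u⁻¹ * v⁻¹ ∈ Subgroup.center U := by
      intro u v
      have h1 : m (Pi.mulSingle ω (u * v * u⁻¹ * v⁻¹)) = 1 := by
        rw [Pi.mulSingle_mul, Pi.mulSingle_mul, Pi.mulSingle_mul,
          Pi.mulSingle_inv, Pi.mulSingle_inv, map_mul, map_mul, map_mul, map_inv, map_inv]
        have h2 := Subgroup.mem_center_iff.mp (hcen ⟨Pi.mulSingle ω u, rfl⟩)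
          (m (Pi.mulSingle ω v))
        rw [← h2]
        group
      have h4 := hW.ker (Pi.mulSingle ω (u * v * u⁻¹ * v⁻¹)) h1 ω
      rwa [Pi.mulSingle_eq_same] at h4
    rw [commutator_def, Subgroup.commutator_le]
    intro u _ v _
    exact key u v
  have htop : Subgroup.center U = ⊤ := by
    rw [eq_top_iff, ← hU]
    exact hcomm
  have hsub : Subsingleton (U ⧸ Subgroup.center U) := by
    rw [htop]
    exact QuotientGroup.subsingleton_quotient_top
  have hSs : Subsingleton S := eS.symm.toEquiv.injective.subsingleton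
  haveI := hsim.toNontrivial
  exact not_subsingleton S hSs

/-- E8: the equality for all groups of the class -/
theorem main_class3 (hZ : StZ) {p : ℕ} [hp : Fact p.Prime] (G : Type) [Group G] [Finite G]
    (hG : Sec3 p (GoodS p) G) : Q1 p G := by
  refine main3 a_S1 a_S2 a_S3 a_S4 a_S4a a_S5 a_S6 a_S7 a_S8 a_S9 a_S12 a_S14 a_S15 a_S16 a_S17
    a_G1 a_G2 a_G3 a_G4 a_G5 (cls_Sec3 p (GoodS p)) (fun G _ _ hG P hP hI => ?_) G hG
  by_cases hc : IsCyclic P
  swap
  · obtain ⟨M, hM, hmin, hna, hQ⟩ := bad_of_red P hP hc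
    by_cases hinn : Inn (GoodS p) M
    · exact inn_core (cls_Sec3 p (GoodS p)) hG P hP M hM hmin hna hinn hI
    by_cases hcy : Cyc p M
    · exact cyc_core (cls_Sec3 p (GoodS p)) hG P hP M hM hmin hna hcy hI
    by_cases hprm : Prm p M
    · exact prm_core hZ P hP M hM hmin hna hprm
    exfalso
    refine hG (G ⧸ Subgroup.center G) ⊤ ((QuotientGroup.mk' (Subgroup.center G)).comp
      Subgroup.topEquiv.toMonoidHom) ?_ ?_ ⟨M, hM, hmin, hna, hQ, hinn, hcy, hprm⟩
    · rw [Subgroup.index_top]
      exact hp.out.one_lt.ne' ∘ Nat.dvd_one.mp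
    · exact (QuotientGroup.mk'_surjective _).comp Subgroup.topEquiv.surjective
  have hdvd : p ∣ Nat.card G := by
    by_contra h
    exact hP.ne (NN_top_of_not_dvd P h)
  obtain ⟨Q, B, H, hPB, hQP, hB, hLC, hE1, hE2⟩ := a_C0 p G P hc hdvd
  have hZB : Subgroup.center G ≤ B := (le_NN_of_center P le_rfl).trans hPB
  have hBt : B ≠ ⊤ := by
    intro h
    -- `Q` would be normal, so central
    have hQn : Q.Normal := by
      rw [← Subgroup.normalizer_eq_top_iff, ← hB, h]
    have hQc : Nat.card Q = p := by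
      have h1 := hLC.cQ
      rw [← h1]
      refine Nat.card_congr (Subgroup.subgroupOfEquivOfLe ?_).toEquiv.symm
      exact hQP.trans (Subgroup.le_normalizer.trans hPB)
    have hQs : Group.IsSolvable Q := by
      have h1 : IsCyclic Q := isCyclic_of_prime_card hQc
      exact Group.isSolvable_of_comm fun x y => by
        letI := h1.commGroup
        exact mul_comm x y
    exact hP.cop (by
      have := Subgroup.card_dvd_of_le (hP.rad Q hQn hQs)
      rwa [hQc] at this)
  rw [a_CN p B G _ _ H B.subtype hLC hE1, ← wt_NN_sub P hPB]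
  exact hI B ((cls_Sec3 p (GoodS p)).sub G B (idx P (Subgroup.le_normalizer.trans hPB)) hG)
    (index_center_lt hZB hBt) _

end

end Pool.Agent.Zk54.MR
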